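import Pool.Agent.D0H11.GF.Tran

/-!
# MP_0ad054_nt: the second prime with generic small coefficients

Authors: helper11 (statement, assembly), helper12, helper21, helper28, helper70, helper81, helper87 (modules).

The numbers `p = x² + 3y² + 5z² + 7w²` and `p - 2` of the question are replaced by `p` and
`p - 2 + ⌊(b₀ x² + b₁ y² + b₂ z² + b₃ w²) / log ^ B n⌋`, with `B ≥ 1` arbitrarily large. For almost every
`b ∈ ℝ⁴` both are prime for `≫ N / log² N` of the representations `n = x² + y² + z² + w²`, for a positive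
proportion of the odd `n ≤ N`. For two generic forms the asymptotic formula holds for almost all odd `n`.

Proof. For two points `x`, `x'` of the sphere with a `2 × 2` minor of `(x_i²)`, `(x'_i²)` larger than
`N² / log ^ D N` the pair `(b · x², b · x'²)` is equidistributed in a parallelogram when `b` varies in a cube, so the
prime number theorem with logarithmic savings shows that the two primality conditions are independent in the
mean; the other pairs of points on the same sphere are few in mean square over `n` (count of `ab = cd`). This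
gives a second moment over `b` with all powers of `log N` saved, for arbitrary weights of the points, and
Borel-Cantelli along the powers of two gives almost every `b`.
-/

set_option autoImplicit false

open Filter MeasureTheory

namespace Pool.Agent.Results.MP_0ad054_nt.GenericSecondPrime

/-- the integer `j` is a prime number -/
def IsPrime (j : ℤ) : Prop := ∃ q : ℕ, q.Prime ∧ (q : ℤ) = j

/-- the form `b₀ x₀² + b₁ x₁² + b₂ x₂² + b₃ x₃²` with real coefficients -/
noncomputable def form (b : Fin 4 → ℝ) (x : Fin 4 → ℤ) : ℝ :=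
  b 0 * x 0 ^ 2 + b 1 * x 1 ^ 2 + b 2 * x 2 ^ 2 + b 3 * x 3 ^ 2

/-- the form of the question -/
def p (x : Fin 4 → ℤ) : ℤ := x 0 ^ 2 + 3 * x 1 ^ 2 + 5 * x 2 ^ 2 + 7 * x 3 ^ 2

/-- the number `p - 2` of the question plus the integral part of a small multiple of a generic form -/
noncomputable def second (b : Fin 4 → ℝ) (B n : ℕ) (x : Fin 4 → ℤ) : ℤ :=
  p x - 2 + ⌊form b x / Real.log n ^ B⌋

/-- the solutions of `n = x₀² + x₁² + x₂² + x₃²` with the property `Q` -/
def Sol (Q : (Fin 4 → ℤ) → Prop) (n : ℕ) : Set (Fin 4 → ℤ) :=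
  {x | x 0 ^ 2 + x 1 ^ 2 + x 2 ^ 2 + x 3 ^ 2 = n ∧ Q x}

/-- the number of the odd `n ≤ N` which have at least `r` solutions with the property `Q n` -/
noncomputable def Count (Q : ℕ → (Fin 4 → ℤ) → Prop) (r : ℝ) (N : ℕ) : ℕ :=
  {n : ℕ | n ≤ N ∧ Odd n ∧ r ≤ ((Sol (Q n) n).ncard : ℝ)}.ncard

open Pool.Agent.D0H11.GF

theorem form_eq : form = qd := by
  funext b x
  unfold form qd
  rw [Fin.sum_univ_four]

theorem second_eq (b : Fin 4 → ℝ) (B n : ℕ) (x : Fin 4 → ℤ) : second b B n x = sec b B n x := by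
  unfold second sec
  rw [form_eq]
  rfl

theorem sol_coe (Q : (Fin 4 → ℤ) → Prop) [DecidablePred Q] (n : ℕ) : Sol Q n = (((sph n).filter Q : Finset _) : Set _) := by
  ext x
  rw [Finset.coe_filter]
  simp only [Sol, Set.mem_ofPred_eq, mem_sph, Fin.sum_univ_four]

theorem sol_card (Q : (Fin 4 → ℤ) → Prop) [DecidablePred Q] (n : ℕ) : (Sol Q n).ncard = ((sph n).filter Q).card := by
  rw [sol_coe, Set.ncard_coe_finset]

open Classical in
theorem count_eq (Q : ℕ → (Fin 4 → ℤ) → Prop) (r : ℝ) (N : ℕ) : Count Q r N = Cn Q r N := by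
  unfold Count Cn
  rw [← Set.ncard_coe_finset]
  congr 1
  ext n
  rw [Finset.coe_filter]
  simp only [Set.mem_ofPred_eq, Finset.mem_Icc, sol_card]
  constructor
  · rintro ⟨h1, h2, h3⟩
    refine ⟨⟨?_, h1⟩, h2, h3⟩
    rcases h2 with ⟨m, hm⟩
    omega
  · rintro ⟨⟨_, h1⟩, h2, h3⟩
    exact ⟨h1, h2, h3⟩

theorem pr_prime : Pr Nat.Prime = fun x => IsPrime (p x) := by
  funext x
  rfl

theorem pr_pp1 (k H : ℕ) : Pr (Pool.Agent.D0H11.TW.PP1 k H) = fun x => IsPrime (p x) ∧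
    k ≤ {q : ℕ | q.Prime ∧ (q : ℤ) < p x ∧ p x ≤ q + H}.ncard := by
  funext x
  apply propext
  have e : ∀ m : ℕ, (m : ℤ) = p x → {q : ℕ | q.Prime ∧ (q : ℤ) < p x ∧ p x ≤ q + H}.ncard =
      ((Finset.Ico (m - H) m).filter Nat.Prime).card := by
    intro m hm
    rw [← Set.ncard_coe_finset]
    congr 1
    ext q
    rw [Finset.coe_filter]
    simp only [Set.mem_ofPred_eq, Finset.mem_Ico]
    rw [← hm]
    constructor
    · rintro ⟨g1, g2, g3⟩
      exact ⟨⟨by omega, by omega⟩, g1⟩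
    · rintro ⟨⟨g1, g2⟩, g3⟩
      exact ⟨g3, by omega, by omega⟩
  constructor
  · rintro ⟨m, hm, hm2⟩
    have hm2' : (m : ℤ) = p x := hm2
    refine ⟨⟨m, hm.1, hm2'⟩, ?_⟩
    rw [e m hm2']
    exact hm.2
  · rintro ⟨⟨m, hm, hm2⟩, hk⟩
    rw [e m hm2] at hk
    exact ⟨m, ⟨hm, hk⟩, hm2⟩

theorem pr_pp2 (K : ℕ) (y : ℝ) : Pr (Pool.Agent.D0H11.TW.PP2 K y) = fun x => IsPrime (p x) ∧ 3 ≤ p x ∧
    (p x - 2).natAbs.primeFactorsList.length ≤ K ∧ ∀ q : ℕ, q.Prime → (q : ℤ) ∣ p x - 2 → y < (q : ℝ) := by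
  funext x
  apply propext
  constructor
  · rintro ⟨m, ⟨h1, h2, h3, h4⟩, hm⟩
    have hm' : (m : ℤ) = p x := hm
    rw [← hm']
    have e : ((m : ℤ) - 2) = ((m - 2 : ℕ) : ℤ) := by omega
    rw [e]
    refine ⟨⟨m, h1, rfl⟩, by omega, ?_, fun q hq hd => h4 q hq (by exact_mod_cast hd)⟩
    rw [Int.natAbs_natCast]
    rw [ArithmeticFunction.cardFactors_apply] at h3
    exact h3
  · rintro ⟨⟨m, h1, hm⟩, h2, h3, h4⟩
    rw [← hm] at h2 h3 h4
    have e : ((m : ℤ) - 2) = ((m - 2 : ℕ) : ℤ) := by omega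
    rw [e] at h3 h4
    refine ⟨m, ⟨h1, by omega, ?_, fun q hq hd => h4 q hq (by exact_mod_cast hd)⟩, hm⟩
    rw [ArithmeticFunction.cardFactors_apply]
    rw [Int.natAbs_natCast] at h3
    exact h3

/-- **Theorem.** Let `r(n)` be the number of solutions of `n = x² + y² + z² + w²`.
(1) There is `c > 0` such that for almost every `b ∈ ℝ⁴`, all `B ≥ 1` and all large `N` at least `c N` odd `n ≤ N` have
at least `c N / log² N` solutions for which `p = x² + 3y² + 5z² + 7w²` and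
`p - 2 + ⌊(b₀ x² + b₁ y² + b₂ z² + b₃ w²) / log ^ B n⌋` are both prime.
(2) For every `k` there are `H`, `K`, `c > 0` such that the same holds with `c N / log ^ K N` solutions for which
moreover at least `k` of the numbers `p - H, …, p - 1` are prime.
(3) There are `K`, `δ, c > 0` such that the same holds with `c N / log³ N` solutions for which moreover `p - 2` has at
most `K` prime factors, all larger than `n ^ δ`.
(4) In general: let `P n x` be any property, `K` and `c > 0`. For almost every `b`, all `B ≥ 1` and all large `N`: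
if at least `c N` odd `n ≤ N` have at least `c N / log ^ K N` solutions with the property `P`, then at least
`(c/4) N` odd `n ≤ N` have at least `(c/4) N / log ^ (K+1) N` solutions with the property `P` for which the second
number is prime.
(5) For almost every `a` in `(0, ∞)⁴` and then almost every `b ∈ ℝ⁴`: for all `B ≥ 1`, `A`, `ε > 0` and all large `N`, for all but at
most `N / log ^ A N` of the odd `n ≤ N` the number of the solutions for which `⌊a₀ x² + a₁ y² + a₂ z² + a₃ w²⌋` and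
`⌊a₀ x² + a₁ y² + a₂ z² + a₃ w²⌋ + ⌊(b₀ x² + b₁ y² + b₂ z² + b₃ w²) / log ^ B n⌋` are prime is between
`(1 - ε) r(n) / log² n` and `(1 + ε) r(n) / log² n`. -/
theorem result :
    (∃ c : ℝ, 0 < c ∧ ∀ᵐ b : Fin 4 → ℝ, ∀ B : ℕ, 1 ≤ B → ∀ᶠ N : ℕ in atTop, c * N ≤
      (Count (fun n x => IsPrime (p x) ∧ IsPrime (second b B n x)) (c * N / Real.log N ^ 2) N : ℝ)) ∧
    (∀ k : ℕ, ∃ (H K : ℕ) (c : ℝ), 0 < c ∧ ∀ᵐ b : Fin 4 → ℝ, ∀ B : ℕ, 1 ≤ B → ∀ᶠ N : ℕ in atTop, c * N ≤
      (Count (fun n x => (IsPrime (p x) ∧ k ≤ {q : ℕ | q.Prime ∧ (q : ℤ) < p x ∧ p x ≤ q + H}.ncard) ∧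
        IsPrime (second b B n x)) (c * N / Real.log N ^ K) N : ℝ)) ∧
    (∃ (K : ℕ) (δ c : ℝ), 0 < δ ∧ 0 < c ∧ ∀ᵐ b : Fin 4 → ℝ, ∀ B : ℕ, 1 ≤ B → ∀ᶠ N : ℕ in atTop, c * N ≤
      (Count (fun n x => (IsPrime (p x) ∧ 3 ≤ p x ∧ (p x - 2).natAbs.primeFactorsList.length ≤ K ∧
        ∀ q : ℕ, q.Prime → (q : ℤ) ∣ p x - 2 → (n : ℝ) ^ δ < (q : ℝ)) ∧
          IsPrime (second b B n x)) (c * N / Real.log N ^ 3) N : ℝ)) ∧
    (∀ (P : ℕ → (Fin 4 → ℤ) → Prop) (K : ℕ) (c : ℝ), 0 < c → ∀ᵐ b : Fin 4 → ℝ, ∀ B : ℕ, 1 ≤ B →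
      ∀ᶠ N : ℕ in atTop, c * N ≤ (Count P (c * N / Real.log N ^ K) N : ℝ) →
        c / 4 * N ≤ (Count (fun n x => P n x ∧ IsPrime (second b B n x))
          (c / 4 * N / Real.log N ^ (K + 1)) N : ℝ)) ∧
    (∀ᵐ a : Fin 4 → ℝ, (∀ i, 0 < a i) → ∀ᵐ b : Fin 4 → ℝ, ∀ B : ℕ, 1 ≤ B → ∀ (A : ℕ) (ε : ℝ), 0 < ε →
      ∀ᶠ N : ℕ in atTop, (({n : ℕ | n ≤ N ∧ Odd n ∧
        ¬ |((Sol (fun x => IsPrime ⌊form a x⌋ ∧ IsPrime (⌊form a x⌋ + ⌊form b x / Real.log n ^ B⌋)) n).ncard : ℝ) *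
          Real.log n ^ 2 - ((Sol (fun _ => True) n).ncard : ℝ)| ≤
            ε * ((Sol (fun _ => True) n).ncard : ℝ)}.ncard : ℕ) : ℝ) ≤ N / Real.log N ^ A) := by
  classical
  refine ⟨?_, fun k => ?_, ?_, fun P K c hc => ?_, ?_⟩
  · obtain ⟨c, hc, h⟩ := pr1 l2 bc ok4 tran
    refine ⟨c, hc, ?_⟩
    filter_upwards [h] with b hb B hB
    filter_upwards [hb B hB] with N hN
    rw [count_eq]
    simp only [pr_prime] at hN
    simp only [second_eq]
    exact hN
  · obtain ⟨H, K, c, hc, h⟩ := pr2 l2 bc ok4 tran Pool.Agent.D0H69.TW.may k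
    refine ⟨H, K, c, hc, ?_⟩
    filter_upwards [h] with b hb B hB
    filter_upwards [hb B hB] with N hN
    rw [count_eq]
    simp only [pr_pp1] at hN
    simp only [second_eq]
    exact hN
  · obtain ⟨K, δ, c, hδ, hc, h⟩ := pr3 l2 bc ok4 tran Pool.Agent.D0H69.TW.chn
    refine ⟨K, δ, c, hδ, hc, ?_⟩
    filter_upwards [h] with b hb B hB
    filter_upwards [hb B hB] with N hN
    rw [count_eq]
    simp only [pr_pp2] at hN
    simp only [second_eq]
    exact hN
  · filter_upwards [transfer l2 bc ok4 P K c hc] with b hb B hB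
    filter_upwards [hb B hB] with N hN hS
    rw [count_eq] at hS ⊢
    simp only [second_eq]
    exact hN hS
  · filter_upwards [two l2 bc ok4 rlow] with a ha ha0
    filter_upwards [ha ha0] with b hb B hB A ε hε
    filter_upwards [hb B hB A ε hε] with N hN
    refine le_trans (le_of_eq ?_) hN
    congr 1
    rw [← Set.ncard_coe_finset]
    congr 1
    ext n
    rw [Finset.coe_filter]
    simp only [Set.mem_ofPred_eq, Finset.mem_Icc, sol_card, Finset.filter_true, form_eq]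
    have e : ((sph n).filter fun x => IsPrime ⌊qd a x⌋ ∧ IsPrime (⌊qd a x⌋ + ⌊qd b x / Real.log n ^ B⌋)).card =
        C2 a b B n := by
      unfold C2
      rfl
    rw [e]
    constructor
    · rintro ⟨h1, h2, h3⟩
      refine ⟨⟨?_, h1⟩, h2, h3⟩
      rcases h2 with ⟨m, hm⟩
      omega
    · rintro ⟨⟨_, h1⟩, h2, h3⟩
      exact ⟨h1, h2, h3⟩

end Pool.Agent.Results.MP_0ad054_nt.GenericSecondPrime
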