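import Pool.Agent.D0H11.TW.Fin2
import Pool.Agent.D0H11.TW.Trans
import Pool.Agent.D0H87.TW.Weyl
import Pool.Agent.D0H87.TW.Four
import Pool.Agent.D0H87.TW.Phi
import Pool.Agent.D0H87.TW.R4
import Pool.Agent.D0H73.TW.Minor
import Pool.Agent.D0H73.TW.ThmA
import Pool.Agent.D0H98.TW.Arc
import Pool.Agent.D0H98.TW.Ker
import Pool.Agent.D0H15.TW.Equi
import Pool.Agent.D0H15.TW.Main
import Pool.Agent.D0H15.TW.Cls
import Pool.Agent.D0H52.TW.Loc
import Pool.Agent.D0H52.TW.Hen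
import Pool.Agent.D0H52.TW.Ser
import Pool.Agent.D0H12.TW.Pen
import Pool.Agent.D0H12.TW.Sv
import Pool.Agent.D0H69.TW.May
import Pool.Agent.D0H69.TW.Chn2

/-!
# MP_0ad054_nt: a positive proportion of the odd numbers

The proof: the primes `p` in question are so many that, by the circle method (the numbers `m` with fewer
representations `m = x² + 3y² + 5z² + 7w²` than expected are at most `M ^ (1 - 1/40)` up to `M`), they are
represented `≫ N² / log ^ K N` times in total; an upper bound sieve on each sphere `x² + y² + z² + w² = n`, in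
mean square over `n`, shows that these representations are spread over a positive proportion of the `n`.
-/

set_option autoImplicit false

open Filter

namespace Pool.Agent.Results.MP_0ad054_nt.PositiveProportion

/-- the `(x, y, z, w)` with `n = x² + y² + z² + w²` for which `p = x² + 3y² + 5z² + 7w²` has the
property `P` -/
def Reps (P : ℕ → Prop) (n : ℕ) : Set (ℤ × ℤ × ℤ × ℤ) :=
  {v | (n : ℤ) = v.1 ^ 2 + v.2.1 ^ 2 + v.2.2.1 ^ 2 + v.2.2.2 ^ 2 ∧
    ∃ p : ℕ, (p : ℤ) = v.1 ^ 2 + 3 * v.2.1 ^ 2 + 5 * v.2.2.1 ^ 2 + 7 * v.2.2.2 ^ 2 ∧ P p}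

/-- the number of odd `n ≤ N` which have at least `r` such representations -/
noncomputable def Count (P : ℕ → Prop) (r : ℝ) (N : ℕ) : ℕ :=
  {n : ℕ | n ≤ N ∧ Odd n ∧ r ≤ ((Reps P n).ncard : ℝ)}.ncard

open Pool.Agent.D0H11.TW in
theorem cnt_eq (P : ℕ → Prop) (r : ℝ) (N : ℕ) : cnt N P r = Count P r N := by
  classical
  unfold cnt Count
  rw [← Set.ncard_coe_finset]
  congr 1
  ext n
  rw [Finset.mem_coe, Finset.mem_filter, Finset.mem_Icc, Set.mem_ofPred_eq]
  constructor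
  · rintro ⟨⟨_, h1⟩, h2, h3⟩
    exact ⟨h1, h2, h3⟩
  · rintro ⟨h1, h2, h3⟩
    refine ⟨⟨?_, h1⟩, h2, h3⟩
    rcases h2 with ⟨m, hm⟩
    omega

open Pool.Agent.D0H11.TW in
theorem tran : S_TRANS :=
  Pool.Agent.D0H11.TW.trans Pool.Agent.D0H15.TW.t_CLS
    (Pool.Agent.D0H73.TW.thma
      (Pool.Agent.D0H73.TW.minor Pool.Agent.D0H87.TW.t_WEYL Pool.Agent.D0H87.TW.t_FOUR)
      Pool.Agent.D0H98.TW.arc (Pool.Agent.D0H15.TW.t_EQUI Pool.Agent.D0H98.TW.Ker.ker)
      (Pool.Agent.D0H15.TW.t_MAIN Pool.Agent.D0H98.TW.Ker.ker)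
      (Pool.Agent.D0H52.TW.ser Pool.Agent.D0H52.TW.loc Pool.Agent.D0H52.TW.hen))
    (Pool.Agent.D0H12.TW.sv Pool.Agent.D0H12.TW.pen) Pool.Agent.D0H87.TW.t_R4 Pool.Agent.D0H87.TW.t_PHI

/-- **A positive proportion of the odd numbers.**
(1) For every `k` there are `H`, `K` and `c > 0` such that for all large `N` at least `c N` odd numbers
`n ≤ N` have at least `c N / log ^ K N` representations `n = x² + y² + z² + w²` for which
`p = x² + 3y² + 5z² + 7w²` is prime and at least `k` of the numbers `p - H, ..., p - 1` are prime.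
(2) For every `k` there are a set `S` of `k` positive even numbers, `K` and `c > 0` such that for
infinitely many `N` at least `c N` odd numbers `n ≤ N` have at least `c N / log ^ K N` representations for
which `p` and all the `p - h`, `h ∈ S`, are prime.
(3) There are `K` and `δ, c > 0` such that for all large `N` at least `c N` odd numbers `n ≤ N` have at least
`c N / log ^ 2 N` representations for which `p` is prime and `p - 2` has at most `K` prime factors, all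
larger than `N ^ δ`.
(4) For all `h ≥ 1`, `c₀ > 0` there is `c > 0` such that for all large `N`: if there are at least
`c₀ N / log ^ 2 N` numbers `p ≤ N` with `p` and `p - h` prime, then at least `c N` odd numbers `n ≤ N` have
at least `c N / log ^ 2 N` representations for which `p` and `p - h` are prime. -/
theorem result :
    (∀ k : ℕ, ∃ (H K : ℕ) (c : ℝ), 0 < c ∧ ∀ᶠ N : ℕ in atTop, c * N ≤
      (Count (fun p => p.Prime ∧ k ≤ {q : ℕ | q.Prime ∧ q < p ∧ p ≤ q + H}.ncard)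
        (c * N / Real.log N ^ K) N : ℝ)) ∧
    (∀ k : ℕ, ∃ (S : Finset ℕ) (K : ℕ) (c : ℝ), S.card = k ∧ (∀ h ∈ S, 0 < h ∧ Even h) ∧ 0 < c ∧
      ∃ᶠ N : ℕ in atTop, c * N ≤
        (Count (fun p => p.Prime ∧ ∀ h ∈ S, (p - h).Prime) (c * N / Real.log N ^ K) N : ℝ)) ∧
    (∃ (K : ℕ) (δ c : ℝ), 0 < δ ∧ 0 < c ∧ ∀ᶠ N : ℕ in atTop, c * N ≤
      (Count (fun p => p.Prime ∧ 3 ≤ p ∧ (p - 2).primeFactorsList.length ≤ K ∧
        ∀ q : ℕ, q.Prime → q ∣ p - 2 → (N : ℝ) ^ δ < q) (c * N / Real.log N ^ 2) N : ℝ)) ∧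
    (∀ h : ℕ, 1 ≤ h → ∀ c₀ : ℝ, 0 < c₀ → ∃ c : ℝ, 0 < c ∧ ∀ᶠ N : ℕ in atTop,
      c₀ * N / Real.log N ^ 2 ≤ ({p : ℕ | p ≤ N ∧ p.Prime ∧ (p - h).Prime}.ncard : ℝ) →
        c * N ≤ (Count (fun p => p.Prime ∧ (p - h).Prime) (c * N / Real.log N ^ 2) N : ℝ)) := by
  classical
  have hT := tran
  refine ⟨fun k => ?_, fun k => ?_, ?_, fun h hh c₀ hc₀ => ?_⟩
  · obtain ⟨H, K, c, hc, N0, h1⟩ := Pool.Agent.D0H11.TW.part1 hT Pool.Agent.D0H69.TW.may k
    refine ⟨H, K, c, hc, ?_⟩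
    filter_upwards [eventually_ge_atTop N0] with N hN
    have h2 := h1 N hN
    rw [cnt_eq] at h2
    have e : (fun p => p.Prime ∧ k ≤ {q : ℕ | q.Prime ∧ q < p ∧ p ≤ q + H}.ncard) =
        Pool.Agent.D0H11.TW.PP1 k H := by
      funext p
      unfold Pool.Agent.D0H11.TW.PP1
      have e2 : {q : ℕ | q.Prime ∧ q < p ∧ p ≤ q + H} =
          (((Finset.Ico (p - H) p).filter Nat.Prime : Finset ℕ) : Set ℕ) := by
        ext q
        rw [Finset.mem_coe, Finset.mem_filter, Finset.mem_Ico, Set.mem_ofPred_eq]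
        constructor
        · rintro ⟨g1, g2, g3⟩
          exact ⟨⟨by omega, g2⟩, g1⟩
        · rintro ⟨⟨g1, g2⟩, g3⟩
          exact ⟨g3, g2, by omega⟩
      rw [e2, Set.ncard_coe_finset]
    rw [e]
    exact h2
  · obtain ⟨S, K, c, h1, h2, hc, h3⟩ := Pool.Agent.D0H11.TW.part4 hT Pool.Agent.D0H69.TW.may k
    refine ⟨S, K, c, h1, h2, hc, h3.mono fun N hN => ?_⟩
    rw [cnt_eq] at hN
    exact hN
  · obtain ⟨K, δ, c, hδ, hc, N0, h1⟩ := Pool.Agent.D0H11.TW.part2 hT Pool.Agent.D0H69.TW.chn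
    refine ⟨K, δ, c, hδ, hc, ?_⟩
    filter_upwards [eventually_ge_atTop N0] with N hN
    have h2 := h1 N hN
    rw [cnt_eq] at h2
    exact h2
  · obtain ⟨c, hc, N0, h1⟩ := Pool.Agent.D0H11.TW.part3 hT h hh c₀ hc₀
    refine ⟨c, hc, ?_⟩
    filter_upwards [eventually_ge_atTop N0] with N hN hN2
    have e : {p : ℕ | p ≤ N ∧ p.Prime ∧ (p - h).Prime}.ncard = Pool.Agent.D0H11.TW.tw h N := by
      unfold Pool.Agent.D0H11.TW.tw
      rw [← Set.ncard_coe_finset]
      congr 1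
      ext p
      rw [Finset.mem_coe, Finset.mem_filter, Finset.mem_Icc, Set.mem_ofPred_eq]
      constructor
      · rintro ⟨g1, g2, g3⟩
        exact ⟨⟨g2.one_lt.le, g1⟩, g2, g3⟩
      · rintro ⟨⟨g0, g1⟩, g2, g3⟩
        exact ⟨g1, g2, g3⟩
    rw [e] at hN2
    have h2 := h1 N hN hN2
    rw [cnt_eq] at h2
    exact h2

end Pool.Agent.Results.MP_0ad054_nt.PositiveProportion
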