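import Pool.Agent.D0H51.SS.Low
import Pool.Agent.Results.MP_0ad054_nt.PositiveProportion

/-!
# MP_0ad054_nt: a positive proportion of sparse sequences of odd numbers

For every real `h ≥ 1` and almost every real `α > 0` a positive proportion of the integers `n = ⌊α m ^ h⌋` are odd and
have many representations `n = x² + y² + z² + w²` for which `p = x² + 3y² + 5z² + 7w²` is prime and one has `k` further
primes in `[p - H, p)`, respectively fixed `k` even numbers `s` with `p - s` prime (for infinitely many `M`),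
respectively `p - 2` is an almost prime without small prime factors.

Proof: the theorems of helper11 (PositiveProportion) for all integers, and the transfer of lower bounds for the counting
function of an arbitrary set to almost all sequences `⌊α m ^ h⌋` (`Pool.Agent.D0H51.SS.low`, from the universal
sampling theorem of helper91).
-/

set_option autoImplicit false

namespace Pool.Agent.Results.MP_0ad054_nt.SparseSequences

open Filter MeasureTheory Topology Finset
open Pool.Agent.Results.MP_0ad054_nt.PositiveProportion (Reps Count)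

/-- the odd `n` with at least `c n / (log n) ^ K` quadruples `(x, y, z, w)` of integers, `n = x² + y² + z² + w²`, for
which `p = x² + 3y² + 5z² + 7w²` has the property `P n` -/
def Many (P : ℕ → ℕ → Prop) (c : ℝ) (K : ℕ) : Set ℕ :=
  {n | Odd n ∧ c * (n / Real.log n ^ K) ≤ ((Reps (P n) n).ncard : ℝ)}

theorem reps_finite (P : ℕ → Prop) (n : ℕ) : (Reps P n).Finite := by
  have h1 : (Reps P n) ⊆ ((Icc (-(n : ℤ)) n ×ˢ (Icc (-(n : ℤ)) n ×ˢ (Icc (-(n : ℤ)) n ×ˢ Icc (-(n : ℤ)) n)) :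
      Finset (ℤ × ℤ × ℤ × ℤ)) : Set (ℤ × ℤ × ℤ × ℤ)) := by
    rintro ⟨x, y, z, w⟩ ⟨h, -⟩
    simp only at h
    simp only [Finset.coe_product, Set.mem_prod, Finset.mem_coe, Finset.mem_Icc]
    have key : ∀ a : ℤ, a ^ 2 ≤ n → -(n : ℤ) ≤ a ∧ a ≤ n := by
      intro a ha
      have h0 : (0 : ℤ) ≤ n := Int.natCast_nonneg n
      constructor
      · nlinarith [sq_nonneg (a + 1)]
      · nlinarith [sq_nonneg (a - 1)]
    refine ⟨key x ?_, key y ?_, key z ?_, key w ?_⟩ <;>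
      nlinarith [sq_nonneg x, sq_nonneg y, sq_nonneg z, sq_nonneg w]
  exact (Finset.finite_toSet _).subset h1

/-- `x / (log x) ^ K` is monotone from some point on -/
theorem div_log_mono (K : ℕ) {x y : ℝ} (hx : Real.exp (K + 1) ≤ x) (hxy : x ≤ y) :
    x / Real.log x ^ K ≤ y / Real.log y ^ K := by
  have hx1 : 1 < x := by
    have h1 : (0 : ℝ) < (K : ℝ) + 1 := by positivity
    have := Real.one_lt_exp_iff.2 h1
    linarith
  have hlx : 0 < Real.log x := Real.log_pos hx1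
  have hly : 0 < Real.log y := Real.log_pos (hx1.trans_le hxy)
  rcases Nat.eq_zero_or_pos K with h0 | h0
  · subst h0
    simpa using hxy
  have hK : (0 : ℝ) < K := by exact_mod_cast h0
  have h1 := Real.log_div_self_rpow_antitoneOn (a := 1 / K) (by positivity)
    (show x ∈ Set.Ici (Real.exp (1 / (K : ℝ))⁻¹) by
      rw [Set.mem_Ici, one_div, inv_inv]
      exact (Real.exp_le_exp.2 (by linarith)).trans hx)
    (show y ∈ Set.Ici (Real.exp (1 / (K : ℝ))⁻¹) by
      rw [Set.mem_Ici, one_div, inv_inv]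
      exact ((Real.exp_le_exp.2 (by linarith)).trans hx).trans hxy) hxy
  simp only at h1
  have hx0 : 0 < x := by linarith
  have hy0 : 0 < y := by linarith
  have h2 := pow_le_pow_left₀ (by positivity) h1 K
  rw [div_pow, div_pow, ← Real.rpow_natCast (x ^ (1 / (K : ℝ))), ← Real.rpow_natCast (y ^ (1 / (K : ℝ))),
    ← Real.rpow_mul hx0.le, ← Real.rpow_mul hy0.le] at h2
  have h3 : 1 / (K : ℝ) * K = 1 := by field_simp
  rw [h3, Real.rpow_one, Real.rpow_one, div_le_div_iff₀ hy0 hx0] at h2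
  rw [div_le_div_iff₀ (by positivity) (by positivity)]
  linarith

open Classical in
/-- from the counting functions with thresholds to the fixed sets `Many` -/
theorem count_many (P P' : ℕ → ℕ → Prop) (hPP : ∀ n N p, n ≤ N → P' N p → P n p) (c : ℝ) (hc : 0 < c) (K : ℕ) :
    ∀ᶠ N : ℕ in atTop, c * N ≤ (Count (P' N) (c * N / Real.log N ^ K) N : ℝ) →
      c / 2 * N ≤ (((range (N + 1)).filter (· ∈ Many P c K)).card : ℝ) := by
  obtain ⟨n0, hn0⟩ := exists_nat_ge (Real.exp (K + 1))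
  filter_upwards [eventually_ge_atTop n0, eventually_ge_atTop ⌈2 * (n0 : ℝ) / c⌉₊] with N hN hN2 h1
  have h2 : Count (P' N) (c * N / Real.log N ^ K) N ≤
      ((range (N + 1)).filter (· ∈ Many P c K)).card + n0 := by
    unfold Count
    rw [← Set.ncard_coe_finset, ← Finset.card_range n0, ← Set.ncard_coe_finset]
    refine (Set.ncard_le_ncard ?_ ((Finset.finite_toSet _).union (Finset.finite_toSet _))).trans
      (Set.ncard_union_le _ _)
    rintro n ⟨h3, h4, h5⟩
    by_cases h6 : n < n0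
    · right
      exact Finset.mem_coe.2 (Finset.mem_range.2 h6)
    · left
      rw [Finset.mem_coe, Finset.mem_filter, Finset.mem_range]
      refine ⟨by omega, h4, ?_⟩
      have h7 : Real.exp (K + 1) ≤ n := hn0.trans (by exact_mod_cast not_lt.1 h6)
      calc c * (n / Real.log n ^ K) ≤ c * (N / Real.log N ^ K) :=
            mul_le_mul_of_nonneg_left (div_log_mono K h7 (by exact_mod_cast h3)) hc.le
        _ = c * N / Real.log N ^ K := by ring
        _ ≤ _ := h5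
        _ ≤ _ := by
            refine Nat.cast_le.2 (Set.ncard_le_ncard ?_ (reps_finite _ _))
            rintro v ⟨h8, p, h9, h10⟩
            exact ⟨h8, p, h9, hPP n N p h3 h10⟩
  have h3 : (Count (P' N) (c * N / Real.log N ^ K) N : ℝ) ≤
      (((range (N + 1)).filter (· ∈ Many P c K)).card : ℝ) + n0 := by exact_mod_cast h2
  have h4 : 2 * (n0 : ℝ) / c ≤ N := (Nat.le_ceil _).trans (by exact_mod_cast hN2)
  rw [div_le_iff₀ hc] at h4
  linarith

open Classical in
/-- **Main result.** -/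
theorem result (h : ℝ) (hh : 1 ≤ h) :
    (∀ k : ℕ, ∃ (H K : ℕ) (c : ℝ), 0 < c ∧ ∀ᵐ α : ℝ, 0 < α → ∀ᶠ M : ℕ in atTop, c * M ≤
      (((Icc 1 M).filter (fun m : ℕ => ⌊α * (m : ℝ) ^ h⌋₊ ∈ Many
        (fun _ p => p.Prime ∧ k ≤ {q : ℕ | q.Prime ∧ q < p ∧ p ≤ q + H}.ncard) c K)).card : ℝ)) ∧
    (∀ k : ℕ, ∃ (S : Finset ℕ) (K : ℕ) (c : ℝ), S.card = k ∧ (∀ s ∈ S, 0 < s ∧ Even s) ∧ 0 < c ∧
      ∀ᵐ α : ℝ, 0 < α → ∃ᶠ M : ℕ in atTop, c * M ≤
      (((Icc 1 M).filter (fun m : ℕ => ⌊α * (m : ℝ) ^ h⌋₊ ∈ Many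
        (fun _ p => p.Prime ∧ ∀ s ∈ S, (p - s).Prime) c K)).card : ℝ)) ∧
    (∃ (K : ℕ) (δ c : ℝ), 0 < δ ∧ 0 < c ∧ ∀ᵐ α : ℝ, 0 < α → ∀ᶠ M : ℕ in atTop, c * M ≤
      (((Icc 1 M).filter (fun m : ℕ => ⌊α * (m : ℝ) ^ h⌋₊ ∈ Many
        (fun n p => p.Prime ∧ 3 ≤ p ∧ (p - 2).primeFactorsList.length ≤ K ∧
          ∀ q : ℕ, q.Prime → q ∣ p - 2 → (n : ℝ) ^ δ < q) c 2)).card : ℝ)) := by
  have hh0 : 0 < h := by linarith
  -- smaller constants
  have hmono : ∀ (P : ℕ → ℕ → Prop) (c c' : ℝ) (K : ℕ), c' ≤ c → Many P c K ⊆ Many P c' K := by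
    rintro P c c' K hcc n ⟨h1, h2⟩
    refine ⟨h1, le_trans ?_ h2⟩
    apply mul_le_mul_of_nonneg_right hcc
    exact div_nonneg (Nat.cast_nonneg _) (pow_nonneg (Real.log_natCast_nonneg n) _)
  have hfin : ∀ (P : ℕ → ℕ → Prop) (c : ℝ) (K : ℕ), 0 < c → ∀ (α : ℝ) (M : ℕ) (x : ℝ), c / 2 / (8 * h) ≤ x →
      x * M ≤ (((Icc 1 M).filter (fun m : ℕ => ⌊α * (m : ℝ) ^ h⌋₊ ∈ Many P c K)).card : ℝ) →
      c / 2 / (8 * h) * M ≤
        (((Icc 1 M).filter (fun m : ℕ => ⌊α * (m : ℝ) ^ h⌋₊ ∈ Many P (c / 2 / (8 * h)) K)).card : ℝ) := by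
    intro P c K hc α M x hx hM
    refine (mul_le_mul_of_nonneg_right hx (Nat.cast_nonneg M)).trans (hM.trans ?_)
    refine Nat.cast_le.2 (Finset.card_le_card fun m hm => ?_)
    rw [Finset.mem_filter] at hm ⊢
    refine ⟨hm.1, hmono P c _ K ?_ hm.2⟩
    rw [div_div, div_le_iff₀ (by positivity)]
    nlinarith
  obtain ⟨h1, h2, h3, -⟩ := Pool.Agent.Results.MP_0ad054_nt.PositiveProportion.result
  refine ⟨fun k => ?_, fun k => ?_, ?_⟩
  · obtain ⟨H, K, c, hc, hN⟩ := h1 k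
    refine ⟨H, K, c / 2 / (8 * h), by positivity, ?_⟩
    filter_upwards [Pool.Agent.D0H51.SS.low h hh (Many
        (fun _ p => p.Prime ∧ k ≤ {q : ℕ | q.Prime ∧ q < p ∧ p ≤ q + H}.ncard) c K)] with α hα hα0
    have h4 := (hα hα0 (c / 2) (by positivity)).1 (by
      filter_upwards [hN, count_many (fun _ p => p.Prime ∧ k ≤ {q : ℕ | q.Prime ∧ q < p ∧ p ≤ q + H}.ncard)
        (fun _ p => p.Prime ∧ k ≤ {q : ℕ | q.Prime ∧ q < p ∧ p ≤ q + H}.ncard) (fun _ _ _ _ hp => hp) c hc K]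
        with N h5 h6
      exact h6 h5)
    filter_upwards [h4] with M hM
    exact hfin _ c K hc α M _ (by gcongr; norm_num) hM
  · obtain ⟨S, K, c, hS, hS2, hc, hN⟩ := h2 k
    refine ⟨S, K, c / 2 / (8 * h), hS, hS2, by positivity, ?_⟩
    filter_upwards [Pool.Agent.D0H51.SS.low h hh (Many
        (fun _ p => p.Prime ∧ ∀ s ∈ S, (p - s).Prime) c K)] with α hα hα0
    have h4 := (hα hα0 (c / 2) (by positivity)).2 (by
      refine (hN.and_eventually (count_many (fun _ p => p.Prime ∧ ∀ s ∈ S, (p - s).Prime)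
        (fun _ p => p.Prime ∧ ∀ s ∈ S, (p - s).Prime) (fun _ _ _ _ hp => hp) c hc K)).mono ?_
      rintro N ⟨h5, h6⟩
      exact h6 h5)
    exact h4.mono fun M hM => hfin _ c K hc α M _ le_rfl hM
  · obtain ⟨K, δ, c, hδ, hc, hN⟩ := h3
    refine ⟨K, δ, c / 2 / (8 * h), hδ, by positivity, ?_⟩
    filter_upwards [Pool.Agent.D0H51.SS.low h hh (Many
        (fun n p => p.Prime ∧ 3 ≤ p ∧ (p - 2).primeFactorsList.length ≤ K ∧
          ∀ q : ℕ, q.Prime → q ∣ p - 2 → (n : ℝ) ^ δ < q) c 2)] with α hα hα0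
    have h4 := (hα hα0 (c / 2) (by positivity)).1 (by
      filter_upwards [hN, count_many (fun n p => p.Prime ∧ 3 ≤ p ∧ (p - 2).primeFactorsList.length ≤ K ∧
          ∀ q : ℕ, q.Prime → q ∣ p - 2 → (n : ℝ) ^ δ < q)
        (fun N p => p.Prime ∧ 3 ≤ p ∧ (p - 2).primeFactorsList.length ≤ K ∧
          ∀ q : ℕ, q.Prime → q ∣ p - 2 → (N : ℝ) ^ δ < q) (fun n N p hnN hp =>
          ⟨hp.1, hp.2.1, hp.2.2.1, fun q hq hd => lt_of_le_of_lt
            (Real.rpow_le_rpow (Nat.cast_nonneg _) (by exact_mod_cast hnN) hδ.le) (hp.2.2.2 q hq hd)⟩) c hc 2]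
        with N h5 h6
      exact h6 h5)
    filter_upwards [h4] with M hM
    exact hfin _ c 2 hc α M _ (by gcongr; norm_num) hM

end Pool.Agent.Results.MP_0ad054_nt.SparseSequences
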