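import Pool.Agent.D0H23.PP.Fin3
import Pool.Agent.D0H23.PP.Hoh
import Pool.Agent.D0H23.PP.Uni
import Pool.Agent.D0H42.PW.N1
import Pool.Agent.D0H23.PP.Two
import Pool.Agent.D0H65.PP.Av
import Pool.Agent.D0H76.PP.Bc3
import Pool.Agent.D0H31.PP.Mult2
import Pool.Agent.D0H23.PP.Val3
import Pool.Agent.D0H65.PP.Ex
import Pool.Agent.D0H62.PP.Win2
import Pool.Agent.D0H76.PP.Sp2

/-!
# MP_0ad054_nt: the question for sparsely perturbed primes

The question is whether every positive odd `n` is a sum of four squares `x² + y² + z² + w²` such that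
`p = x² + 3y² + 5z² + 7w²` and `p - 2` are both prime. We answer it for all large odd `n` after a random perturbation of
a thin set of primes: of the primes up to `X` only `X ^ (1 - β)` are moved, `β < 1/4` arbitrary, the prime `q` by less than
`H q ≤ q ^ (1 - κ)`, to numbers all of whose prime factors are larger than a fixed power; all the other primes stay where
they are. If the perturbations are independent, then almost surely EVERY large odd `n` has at least
`n ^ (1 - 2 β - ε)` quadruples `(x, y, z, w)` for which `p` and `p - 2` both belong to the perturbed set of primes.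

The proof: the form takes at least `n ^ (1/2 - ε)` values `p` on the sphere `x² + y² + z² + w² = n` for which `p` and `p - 2` have
no small prime factors (starting library, `Pool.Agent.W65.FS.uniform`, and a bound for the multiplicities of the values).
The primes which are moved are the first ones of short intervals at the beginning of longer blocks, in two classes. By
Hoheisel's theorem (starting library) every large integer is in the windows of sufficiently many primes of each class.
The positions of the primes of the first class are exposed first: except with very small probability they hit many of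
the values `p`. Then those of the second class hit many of the corresponding numbers `p - 2`. Borel-Cantelli.

Project PP: helper23 (statements, two rounds, Borel-Cantelli, assembly), helper65 (few hits are unlikely; values of the
form; existence of the model), helper35 (Borel-Cantelli), helper31 (multiplicities), helper62 (windows), helper74 and
helper76 (sparsity), helper42 (primes in short intervals, project PW of helper86).
-/

set_option autoImplicit false

namespace Pool.Agent.Results.MP_0ad054_nt.SparselyPerturbedPrimes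

open Filter MeasureTheory Pool.Agent.D0H23.PP

/-- a choice which is good with probability one gives a fixed good choice -/
theorem choice {κ δ : ℝ} {H : ℕ → ℕ}
    (h1 : ∀ (Ω : Type) [MeasurableSpace Ω] (μ : Measure Ω) [IsProbabilityMeasure μ] (Y : ℕ → Ω → ℕ),
      Model μ Y H δ → ∀ᵐ ω ∂μ, ∀ᶠ n : ℕ in atTop, Odd n →
        (n : ℝ) ^ κ ≤ (Reps {j | ∃ q : ℕ, q.Prime ∧ Y q ω = j} n).ncard)
    (h2 : ∃ μ : Measure (ℕ → ℕ), IsProbabilityMeasure μ ∧ Model μ (fun k ω => ω k) H δ ∧
      ∀ᵐ ω ∂μ, ∀ q : ℕ, q.Prime → rough δ (ω q)) :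
    ∃ f : ℕ → ℕ, (∀ k, k ≤ f k ∧ f k < k + H k) ∧ (∀ q : ℕ, q.Prime → rough δ (f q)) ∧
      ∀ᶠ n : ℕ in atTop, Odd n → (n : ℝ) ^ κ ≤ (Reps {j | ∃ q : ℕ, q.Prime ∧ f q = j} n).ncard := by
  obtain ⟨μ, hμ, hM, hr⟩ := h2
  have h3 := h1 (ℕ → ℕ) μ (fun k ω => ω k) hM
  have h4 : ∀ᵐ ω ∂μ, ∀ k : ℕ, k ≤ ω k ∧ ω k < k + H k := ae_all_iff.mpr hM.window
  obtain ⟨f, hf1, hf2, hf3⟩ := (h4.and (hr.and h3)).exists
  exact ⟨f, hf1, hf2, hf3⟩

/-- Let `β, ε > 0`, `2 β + ε < 1/2`. There are `κ, δ > 0` and lengths `H k ≥ 1`, `H k ≤ k ^ (1 - κ)`, with `H k = 1` for all `k`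
which are not prime and for all but at most `X ^ (1 - β)` of the `k < X` for large `X`, such that:

1. Let `Y k` be independent random integers, almost surely in `[k, k + H k)`, which take every value `j` there all of whose
   prime factors are larger than `j ^ δ` with probability at least `1 / H k`. Then almost surely every sufficiently large
   odd `n` has at least `n ^ (1 - 2 β - ε)` quadruples of integers with `n = x² + y² + z² + w²` for which
   `p = x² + 3y² + 5z² + 7w²` and `p - 2` both belong to the set of the `Y q`, `q` prime.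
2. Such random integers exist, and they can be chosen such that almost surely all prime factors of `Y q` are larger
   than `(Y q) ^ δ` for every prime `q`.
3. So there is a fixed function `f` with `k ≤ f k < k + H k`, such that all prime factors of `f q` are larger than
   `(f q) ^ δ` for every prime `q`, and every sufficiently large odd `n` has at least `n ^ (1 - 2 β - ε)` quadruples of this
   kind with `p` and `p - 2` in the set of the `f q`, `q` prime. -/
theorem result (β ε : ℝ) (hβ : 0 < β) (hε : 0 < ε) (hβε : 2 * β + ε < 1 / 2) :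
    ∃ κ δ : ℝ, 0 < κ ∧ 0 < δ ∧ ∃ H : ℕ → ℕ, (∀ k, 1 ≤ H k) ∧
    (∀ k : ℕ, 1 ≤ k → (H k : ℝ) ≤ (k : ℝ) ^ (1 - κ)) ∧ (∀ k, H k ≠ 1 → k.Prime) ∧
    (∀ᶠ X : ℕ in atTop, ({k : ℕ | k < X ∧ H k ≠ 1}.ncard : ℝ) ≤ (X : ℝ) ^ (1 - β)) ∧
    (∀ (Ω : Type) [MeasurableSpace Ω] (μ : Measure Ω) [IsProbabilityMeasure μ] (Y : ℕ → Ω → ℕ),
      Model μ Y H δ → ∀ᵐ ω ∂μ, ∀ᶠ n : ℕ in atTop, Odd n →
        (n : ℝ) ^ (1 - 2 * β - ε) ≤ (Reps {j | ∃ q : ℕ, q.Prime ∧ Y q ω = j} n).ncard) ∧
    (∃ μ : Measure (ℕ → ℕ), IsProbabilityMeasure μ ∧ Model μ (fun k ω => ω k) H δ ∧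
      ∀ᵐ ω ∂μ, ∀ q : ℕ, q.Prime → rough δ (ω q)) ∧
    ∃ f : ℕ → ℕ, (∀ k, k ≤ f k ∧ f k < k + H k) ∧ (∀ q : ℕ, q.Prime → rough δ (f q)) ∧
      ∀ᶠ n : ℕ in atTop, Odd n →
        (n : ℝ) ^ (1 - 2 * β - ε) ≤ (Reps {j | ∃ q : ℕ, q.Prime ∧ f q = j} n).ncard := by
  obtain ⟨κ, δ, hκ, hδ, H, h1, h2, h2', h3, h4, h5⟩ :=
    fin3 (Pool.Agent.D0H76.PP.t_BC3 (t_TWO Pool.Agent.D0H65.PP.t_AV))
      (t_VAL3 t_UNI (Pool.Agent.D0H31.PP.t_MULT2 t_DIV)) Pool.Agent.D0H62.PP.t_WIN2
      Pool.Agent.D0H76.PP.t_SP2 Pool.Agent.D0H65.PP.t_EX (hoh_of Pool.Agent.D0H42.PW.t_N1) β ε hβ hε hβε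
  exact ⟨κ, δ, hκ, hδ, H, h1, h2, h2', h3, h4, h5, choice h4 h5⟩

end Pool.Agent.Results.MP_0ad054_nt.SparselyPerturbedPrimes
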